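import Pool.Agent.helper10.V3.Defs
import Pool.Agent.helper36.PP.SpecM
import Pool.Agent.helper74.MQ.App

/-!
# Project v3: part W (consequences of the main theorem `V3S.V3P_stmt`): `z ^ n + c`, the space of polynomials, line fields

RULES. File `Pool/Agent/<seat>/V3/XX.lean`, `import Pool.Agent.helper36.V3.SpecW`, `namespace V3W`, `theorem XX (h : YY_stmt) ... : XX_stmt`. Hypotheses may be: other statements of this file (no circles), `V3S.V3P_stmt`,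
every statement of the specs of pp: (`PPS`), mq: (`MQ`, also `MQ.FB1_stmt` of `Pool/Agent/helper74/MQ/App.lean`) and mp: (`MPS`) (all proved). Auxiliary lemmas prefixed `XX_`. No `sorry`, no double quotes in comments.
-/

set_option autoImplicit false

open Complex Metric Set Filter Topology MeasureTheory MPS Pool.Agent.helper98.ILF Pool.Agent.helper16.Multibrot

noncomputable section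

namespace V3W

/-! ## Polynomials -/

/-- CRB: a critical point at a bounded distance.
PROOF. `f'` has degree `n - 1 ≥ 1`, so it has a root `y`. If `‖y‖ ≥ 1`: `n ‖lead‖ ‖y‖^(n-1) ≤ ∑_{l<n-1} (l+1) a ‖y‖^l ≤ n² a ‖y‖^(n-2)`, `‖lead‖ ≥ 1/a`: `‖y‖ ≤ n a²`. `A = max 1 (n a²)`. -/
def CRB_stmt : Prop := ∀ (n : ℕ) (a : ℝ), 2 ≤ n → 0 < a → ∃ A > (0 : ℝ), ∀ f : Polynomial ℂ,
  PPS.Bd n a f → ∃ y : ℂ, ‖y‖ ≤ A ∧ PPS.fd f y = 0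

/-- REB: a cycle gives a good datum.
PROOF. `MPS.NM`: maximal maps `ψ i`. Choose `i₀` with `‖deriv (ψ i) 0‖` minimal (finite type). `D = ⟨k, _, f, fun j => b (i₀ + j), fun j => g (i₀ + j), fun j => ψ (i₀ + j), lam⟩`; `PPS.SHF` or reindexing: `BB`, `er`, `MaxPN`, `IsCyc`, `Exact`, `rho` (product over the group) are preserved
(compare `PPS.TR`, helper30/PP/TR.lean). -/
def REB_stmt : Prop := ∀ (n k : ℕ) [NeZero k] (f : Polynomial ℂ) (b g : ZMod k → ℂ) (lam : ℂ) (ra : ℝ)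
  (Cf : ℝ → ℝ), 2 ≤ n → f.natDegree = n → 2 ≤ k → PPS.IsCyc f b → PPS.rho f b = Complex.exp lam →
  0 < lam.re → PPS.Exact f b g → 0 < ra → (∀ j, ‖b j‖ ≤ ra) → (∃ y : ℂ, ‖y‖ ≤ ra ∧ PPS.fd f y = 0) →
  (∀ R : ℝ, ra < R → ∀ y : ℂ, ‖f.eval y‖ < R → ‖y‖ < R) →
  (∀ R : ℝ, ra < R → ∫ z in ball (0 : ℂ) R, ‖PPS.er f b g z‖ ≤ Cf R * ‖lam‖) →
  ∃ D : V3S.Dat, D.Good n ra Cf ∧ D.lam = lam

/-- VPD: the main theorem for polynomials with bounded coefficients.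
PROOF. `ra` = maximum of `A` of `PPS.RAD`, `A` of CRB (`≥ 1`). The cycle is in `ball 0 ra` (RAD, third part: `(fun w => f.eval w)^[k] (b i) = b i`), `inv` by RAD, second part. `V3P_stmt` for `n`, `ra`, `Cf`; REB. -/
def VPD_stmt : Prop := ∀ (n : ℕ) (a : ℝ) (Cf : ℝ → ℝ), 2 ≤ n → 0 < a → ∃ ε > (0 : ℝ),
  ∀ (k : ℕ) [NeZero k] (f : Polynomial ℂ) (b g : ZMod k → ℂ) (lam : ℂ), 2 ≤ k → PPS.Bd n a f →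
  PPS.IsCyc f b → PPS.Exact f b g → PPS.rho f b = Complex.exp lam → 0 < lam.re →
  (∀ R : ℝ, 1 ≤ R → ∫ z in ball (0 : ℂ) R, ‖PPS.er f b g z‖ ≤ Cf R * ‖lam‖) → ε ≤ ‖lam‖

/-- LGN: logarithms near `1`.
PROOF. `lam = Complex.log ρ`: `exp lam = ρ`, `Re lam = log‖ρ‖`. With `w = ρ - 1`, `‖w‖ ≤ 1/2`: `‖log (1+w)‖ ≤ 2‖w‖` and `‖log (1 + w) - w‖ ≤ ‖w‖²` (or similar): `‖w‖ ≤ 2‖lam‖` (`Complex.norm_log_one_add_sub_self_le`). Second: `log‖ρ‖ ≤ ‖ρ‖ - 1 ≤ ‖ρ - 1‖`.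
Third: `‖ρ/‖ρ‖ - 1‖ ≥ ‖ρ - 1‖ - ‖ρ - ρ/‖ρ‖‖ = ‖ρ - 1‖ - (‖ρ‖ - 1)`, `‖ρ‖ - 1 ≤ 2 log‖ρ‖` for `log‖ρ‖ ≤ 1`. -/
def LGN_stmt : Prop := (∀ ρ : ℂ, 1 < ‖ρ‖ → ‖ρ - 1‖ ≤ 1 / 2 → ∃ lam : ℂ, Complex.exp lam = ρ ∧
    lam.re = Real.log ‖ρ‖ ∧ ‖lam‖ ≤ 2 * ‖ρ - 1‖ ∧ ‖ρ - 1‖ ≤ 2 * ‖lam‖) ∧
  (∀ ρ : ℂ, 1 < ‖ρ‖ → 0 < Real.log ‖ρ‖ ∧ Real.log ‖ρ‖ ≤ ‖ρ - 1‖) ∧
  (∀ ρ : ℂ, 1 < ‖ρ‖ → Real.log ‖ρ‖ ≤ 1 → ‖ρ - 1‖ - 2 * Real.log ‖ρ‖ ≤ ‖ρ / ‖ρ‖ - 1‖)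

/-- THN: multipliers near `1`.
PROOF. `k = 1` (`ZMod k` is `ZMod 1`): `PPS.K1`: `ε₁ ≤ log‖ρ‖ + ∑`; if `‖ρ - 1‖ ≤ min (ε₁/2) (ε₁/(2K))` then `∑ ≥ ε₁/2 ≥ K ‖ρ - 1‖`. `k ≥ 2`: LGN: `lam`. If `∑ < K ‖ρ - 1‖ ≤ 2K ‖lam‖` then by `PPS.QB`, `PPS.ERQ` (for `R ≥ 1` with `f⁻¹ (ball 0 R) ⊆ ball 0 R`; enlarge: for `1 ≤ R` use
the bound for `max R A`, `A` of `PPS.RAD`): `∫_{ball 0 R} ‖er‖ ≤ Cf R ‖lam‖`, `Cf R = n³ max a 1 R'^n · 2K · π R'²`, `R' = max R A`. VPD: `ε₂ ≤ ‖lam‖ ≤ 2‖ρ - 1‖`. -/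
def THN_stmt : Prop := ∀ (n : ℕ) (a K : ℝ), 2 ≤ n → 0 < a → 0 < K → ∃ ε > (0 : ℝ),
  ∀ (k : ℕ) [NeZero k] (f : Polynomial ℂ) (b g : ZMod k → ℂ), PPS.Bd n a f → PPS.IsCyc f b →
  1 < ‖PPS.rho f b‖ → ‖PPS.rho f b - 1‖ ≤ ε → PPS.Exact f b g →
  K * ‖PPS.rho f b - 1‖ ≤ ∑ m ∈ Finset.range (n - 1), ‖PPS.lam f b g m‖

/-- THQ: all directions.
PROOF. THN: `ε₁` (`≤ 1`); `PPS.THC` with `d₀ = ε₁/2`: `ε₃`. `ε = min (ε₁/4) (ε₃/(2(1 + K)))`. If `‖ρ - 1‖ ≤ ε₁`: THN and `log‖ρ‖ ≤ ‖ρ - 1‖` (LGN). Otherwise `‖ρ/‖ρ‖ - 1‖ ≥ ε₁ - 2ε ≥ ε₁/2` (LGN), THC: `ε₃ ≤ log‖ρ‖ + ∑`, so `∑ ≥ ε₃/2 ≥ K log‖ρ‖`. -/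
def THQ_stmt : Prop := ∀ (n : ℕ) (a K : ℝ), 2 ≤ n → 0 < a → 0 < K → ∃ ε > (0 : ℝ),
  ∀ (k : ℕ) [NeZero k] (f : Polynomial ℂ) (b g : ZMod k → ℂ), PPS.Bd n a f → PPS.IsCyc f b →
  1 < ‖PPS.rho f b‖ → Real.log ‖PPS.rho f b‖ ≤ ε → PPS.Exact f b g →
  K * Real.log ‖PPS.rho f b‖ ≤ ∑ m ∈ Finset.range (n - 1), ‖PPS.lam f b g m‖

/-- FAQ: the derivatives of the multiplier. PROOF. From THQ as `PPS.FA` from `PPS.THC` (helper28/PP/FA.lean: ZCY, TG, ZLP). -/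
def FAQ_stmt : Prop := ∀ (n : ℕ) (a K : ℝ), 2 ≤ n → 0 < a → 0 < K → ∃ ε > (0 : ℝ),
  ∀ (f : Polynomial ℂ) (k : ℕ) (z : ℂ) (r : ℝ) (Z : ℕ → ℂ → ℂ), PPS.Bd n a f → PPS.Cyc f k z →
  1 < ‖PPS.mlt f k z‖ → Real.log ‖PPS.mlt f k z‖ ≤ ε → 0 < r →
  (∀ m < n - 1, DifferentiableOn ℂ (Z m) (ball 0 r) ∧ Z m 0 = z ∧
    ∀ t ∈ ball (0 : ℂ) r, PPS.Cyc (f + Polynomial.C t * Polynomial.X ^ m) k (Z m t)) →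
  K * Real.log ‖PPS.mlt f k z‖ ≤ ∑ m ∈ Finset.range (n - 1),
    ‖deriv (fun t => PPS.mlt (f + Polynomial.C t * Polynomial.X ^ m) k (Z m t)) 0 / PPS.mlt f k z‖

/-- FDQ: indifferent cycles nearby.
PROOF. As `PPS.FD` (helper75/PP/FD.lean): FAQ with `K = 2 n/δ`. If there are no indifferent cycles of `f + t X^m`, `‖t‖ < δ`, `m < n - 1`: `PPS.CON`: `Z m`; `mlt` has modulus `> 1` on the disc, `MPS.ZBC`: each logarithmic derivative is `≤ 2 L/δ`, `L = log‖mlt‖ > 0`; FAQ: `(2n/δ) L ≤ (n-1) 2L/δ`: contradiction. -/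
def FDQ_stmt : Prop := ∀ (n : ℕ) (a δ : ℝ), 2 ≤ n → 0 < a → 0 < δ → ∃ ε > (0 : ℝ),
  ∀ (f : Polynomial ℂ) (k : ℕ) (z : ℂ), PPS.Bd n a f → PPS.Cyc f k z → 1 < ‖PPS.mlt f k z‖ →
  Real.log ‖PPS.mlt f k z‖ ≤ ε →
  ∃ (m : ℕ) (t : ℂ) (k' : ℕ) (z' : ℂ), m < n - 1 ∧ ‖t‖ < δ ∧
    PPS.Cyc (f + Polynomial.C t * Polynomial.X ^ m) k' z' ∧
    ‖PPS.mlt (f + Polynomial.C t * Polynomial.X ^ m) k' z'‖ = 1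

/-! ## Line fields -/

/-- FLE: many independent line fields make the error small.
PROOF. This is the first part of the proof of `PPS.FLX` (helper63/PP/FLX.lean): rows from the line fields and the forms of rings, `KER`, `MAT`, `ERV`, `INQ2`: `‖s v‖ ≤ C log‖ρ‖` for all critical values `v`, for every cycle with `k ≥ 2`, and `∫_{ball 0 R} ‖er‖ ≤ ∑_v ‖s v‖ ∫_{ball 0 R} 1/‖z - v‖`.
(`Cf R = C ∑_v ∫_{ball 0 R} 1/‖z - v‖`.) -/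
def FLE_stmt : Prop := ∀ (f : Polynomial ℂ), 2 ≤ f.natDegree →
  (∀ v ∈ PPS.CV f, v ∈ juliaSet (fun z : ℂ => f.eval z) ∨ PPS.Esc f v ∨ ∃ p, PPS.APt f p ∧ PPS.Att f p v) →
  ∀ μ : Fin (PPS.CV f ∩ juliaSet (fun z : ℂ => f.eval z)).ncard → ℂ → ℂ,
  (∀ i, IsInvariantLineField (fun z : ℂ => f.eval z) (μ i)) →
  (∀ l : Fin (PPS.CV f ∩ juliaSet (fun z : ℂ => f.eval z)).ncard → ℂ,
    (∀ᵐ z : ℂ, ∑ i, l i * μ i z = 0) → l = 0) →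
  ∃ Cf : ℝ → ℝ, (∀ R, 0 ≤ Cf R) ∧ ∀ (k : ℕ) [NeZero k] (b g : ZMod k → ℂ), 2 ≤ k → PPS.IsCyc f b →
    1 < ‖PPS.rho f b‖ → PPS.Exact f b g →
    ∀ R : ℝ, 0 < R → ∫ z in ball (0 : ℂ) R, ‖PPS.er f b g z‖ ≤ Cf R * Real.log ‖PPS.rho f b‖

/-- FLQ: line fields: all repelling cycles are uniformly repelling.
PROOF. `Bd n a f` for large `a`. FLE: `Cf`. VPD with `Cf`: `ε₁` (`≤ 1`): for a cycle with `k ≥ 2` (`PPS.ZCY`), exact `g` (`PPS.TG`), `‖ρ - 1‖ ≤ ε₁/4` is impossible (LGN: `lam`, `log‖ρ‖ = Re lam ≤ ‖lam‖`, `‖lam‖ ≤ 2‖ρ - 1‖ < ε₁`). If `‖ρ - 1‖ > ε₁/4` and `log‖ρ‖ ≤ ε₁/16`: `‖ρ/‖ρ‖ - 1‖ ≥ ε₁/8` (LGN): `PPS.THB0` with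
`d₀ = ε₁/8`: `R`, `ε₂ ≤ 2π log‖ρ‖ + 4∫‖er‖ ≤ (2π + 4 Cf R) log‖ρ‖`. `k = 1`: finitely many fixed points (roots of `f - X`): the minimum of the positive numbers `log‖f'(z)‖`. -/
def FLQ_stmt : Prop := ∀ (f : Polynomial ℂ), 2 ≤ f.natDegree →
  (∀ v ∈ PPS.CV f, v ∈ juliaSet (fun z : ℂ => f.eval z) ∨ PPS.Esc f v ∨ ∃ p, PPS.APt f p ∧ PPS.Att f p v) →
  ∀ μ : Fin (PPS.CV f ∩ juliaSet (fun z : ℂ => f.eval z)).ncard → ℂ → ℂ,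
  (∀ i, IsInvariantLineField (fun z : ℂ => f.eval z) (μ i)) →
  (∀ l : Fin (PPS.CV f ∩ juliaSet (fun z : ℂ => f.eval z)).ncard → ℂ,
    (∀ᵐ z : ℂ, ∑ i, l i * μ i z = 0) → l = 0) →
  ∃ η > (0 : ℝ), ∀ (k : ℕ) (z : ℂ), PPS.Cyc f k z → 1 < ‖PPS.mlt f k z‖ → 1 + η ≤ ‖PPS.mlt f k z‖

/-! ## The family `z ^ n + c` -/

/-- UER: the data of `z ^ n + c` in the language of pp:.
PROOF. `f = X^n + C c`: `fd f z = n z^(n-1)`, `fdd f z = n (n-1) z^(n-2)`, `f.eval z = z^n + c`, `natDegree = n`; coefficients `0`, `1`, `c`. `er`: `PPS.ERV` with `V = {c}` (`CV f = {c}`): `er = s/(z - c)` almost everywhere; `s = ∑ g i`: as `z → ∞`, `z BB z → ∑ g i`, and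
`‖z TT f BB z‖ ≤ ‖z‖ n (C/‖y‖) /(n² ‖y‖^(2n-2)) → 0` (`‖y‖^n = ‖z - c‖`, `2n - 1 > n`). (Or directly: `er = TT f (QQ ..)`, `QQ y = ∑_m lam m · n y^(n-2-m)` and the sums over the `n`-th roots of `z - c`.) -/
def UER_stmt : Prop := ∀ (n k : ℕ) [NeZero k] (c : ℂ) (b g : ZMod k → ℂ), 2 ≤ n → ‖c‖ ≤ 3 →
  MPS.IsCyc n c b →
  (∀ i, g (i + 1) = g i / MPS.fd n (b i) - MPS.fdd n (b i) / MPS.fd n (b i) ^ 2) →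
  PPS.Bd n 3 (Polynomial.X ^ n + Polynomial.C c) ∧ PPS.IsCyc (Polynomial.X ^ n + Polynomial.C c) b ∧
  PPS.Exact (Polynomial.X ^ n + Polynomial.C c) b g ∧
  PPS.rho (Polynomial.X ^ n + Polynomial.C c) b = MPS.rho n b ∧
  ∀ᵐ z : ℂ, PPS.er (Polynomial.X ^ n + Polynomial.C c) b g z = (∑ i, g i) / (z - c)

/-- THV: Theorem V for the coefficients.
PROOF. UER, VPD with `a = 3`, `Cf R = 2K · 2π (R + 3)`: `∫_{ball 0 R} ‖er‖ = ‖∑ g‖ ∫_{ball 0 R} 1/‖z - c‖ ≤ ‖∑ g‖ 2π (R + 3)` (`MPS` lemmas used in `MPS.TGP`, or: `ball 0 R ⊆ ball c (R+3)`, polar coordinates). If `‖∑ g‖ < K ‖ρ - 1‖ ≤ 2K ‖lam‖` (LGN) then `ε₁ ≤ ‖lam‖ ≤ 2‖ρ - 1‖`. -/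
def THV_stmt : Prop := ∀ (n : ℕ) (K : ℝ), 2 ≤ n → 0 < K → ∃ ε > (0 : ℝ),
  ∀ (k : ℕ) [NeZero k] (c : ℂ) (b g : ZMod k → ℂ), 2 ≤ k → ‖c‖ ≤ 3 → MPS.IsCyc n c b →
  1 < ‖MPS.rho n b‖ → ‖MPS.rho n b - 1‖ ≤ ε →
  (∀ i, g (i + 1) = g i / MPS.fd n (b i) - MPS.fdd n (b i) / MPS.fd n (b i) ^ 2) →
  K * ‖MPS.rho n b - 1‖ ≤ ‖∑ i, g i‖

/-- FV: Theorem V.
PROOF. As `MQ.FA1` (Pool/Agent/helper74/MQ/App.lean, line 64): `‖c‖ ≥ 3`: `MPS.ZBIG`: `‖mlt‖ ≥ 3/2`, excluded by `ε < 1/2`. `k = 1`: `MPS.ZK1`: `1/12 ≤ log‖ρ‖ + ‖ρ'/ρ‖` and `log‖ρ‖ ≤ ‖ρ - 1‖` (LGN). `k ≥ 2`: ZCYC, TG, ZL, THV. -/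
def FV_stmt : Prop := ∀ n : ℕ, 2 ≤ n → ∀ K > (0 : ℝ), ∃ ε > (0 : ℝ), ∀ (k : ℕ) (U : Set ℂ)
  (z : ℂ → ℂ), 0 < k → IsOpen U → DifferentiableOn ℂ z U →
  (∀ c ∈ U, Function.minimalPeriod (fc n c) (z c) = k) → ∀ c ∈ U, 1 < ‖MPS.mlt n k c (z c)‖ →
  ‖MPS.mlt n k c (z c) - 1‖ ≤ ε →
    K * ‖MPS.mlt n k c (z c) - 1‖ ≤ ‖deriv (fun c' => MPS.mlt n k c' (z c')) c / MPS.mlt n k c (z c)‖

/-- FW: Theorem W.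
PROOF. `r' = min r 1`, as `MQ.FB1` (App.lean, line 127): ZN (all cycles over `ball c r'` are repelling), ZC, ZBC: `‖ρ'/ρ‖ ≤ 2L/r'`, `L = log‖ρ‖ > 0`. FV with `K = 4/r'`: `ε₁` (`≤ 1`): `‖ρ - 1‖ ≤ ε₁` is impossible (`(4/r')‖ρ - 1‖ ≤ 2L/r' ≤ 2‖ρ - 1‖/r'`, LGN, and `‖ρ - 1‖ > 0`). If `‖ρ - 1‖ > ε₁` and `L ≤ ε₁/4`:
`‖ρ/‖ρ‖ - 1‖ ≥ ε₁/2` (LGN), `MQ.FB1` with `d = ε₁/2`: `ε₂ r' ≤ L`. So `L ≥ δ := min (ε₁/4) (ε₂ r')`, and `‖ρ‖ = exp L ≥ 1 + δ`. -/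
def FW_stmt : Prop := ∀ n : ℕ, 2 ≤ n → ∀ r > (0 : ℝ), ∃ δ > (0 : ℝ), ∀ c : ℂ,
  Disjoint (ball c r) (hyperbolic n) → ∀ (k : ℕ) (z : ℂ), 0 < k →
  Function.minimalPeriod (fc n c) z = k → 1 + δ ≤ ‖MPS.mlt n k c z‖

/-- FX: Theorem X. PROOF. If `c` is not in the closure: a ball `ball c r` disjoint from `hyperbolic n`; FW. -/
def FX_stmt : Prop := ∀ n : ℕ, 2 ≤ n → ∀ c : ℂ, (∀ η > (0 : ℝ), ∃ (k : ℕ) (z : ℂ), 0 < k ∧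
  Function.minimalPeriod (fc n c) z = k ∧ ‖MPS.mlt n k c z‖ < 1 + η) → c ∈ closure (hyperbolic n)

end V3W
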