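import Pool.Agent.helper36.PP.SpecC

/-!
# Project v3: part S (chain step): section 4 of /team-store/MP_af9036_V3_notes.md for polynomials

RULES. File `Pool/Agent/<seat>/V3/XX.lean`, `import Pool.Agent.helper36.V3.SpecS`, `namespace PPS`, `theorem XX (h : YY_stmt) ... : XX_stmt`. Hypotheses may be: other statements of this file
(no circles), every statement of the pp: Spec files (all proved, `Pool/Agent/helper36/PP/All.lean`) and every statement of `MPS` (proved). Auxiliary lemmas prefixed `XX_`. No `sorry`, no double quotes in comments.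

This is Phase 2 of pp: (`Pool/Agent/helper36/PP/SpecC.lean`; proofs: P2A helper51, P2L helper16, MU2 helper21, PT2 helper75, REACH2 helper97, EV2 helper60, STEP2 helper30, SEQ2 helper19, PH2 helper16, in `Pool/Agent/<seat>/PP/`),
with the following changes: centre `0` instead of `ctr y ρ₁`; outer radius `h` instead of `9ρ₁/8`; final radius `> 3h/4`; the information at the centre comes from a given tower `G0` on `ball 0 r₀`;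
the exceptional label `ps` is replaced by a finite set `PP` of labels with at most `M` elements, so the multiplicity is `M + 1` instead of `2`. Write `s = ‖deriv χ 0‖`, `a = χ 0`, `D t = ball 0 t`.
-/

set_option autoImplicit false

open Complex Metric Set Filter Topology MeasureTheory MPS

noncomputable section

namespace PPS

/-- the permitted loss of radius at a critical value. -/
def d3 (n M : ℕ) (h r₀ : ℝ) : ℝ := min r₀ (h / (16 * (M + 1) * n))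

/-- the bound for `ε`. -/
def e3 (n M : ℕ) (h r₀ : ℝ) : ℝ := d3 n M h r₀ ^ 2 / (cn n * (M + 5))

section
variable {k : ℕ} [NeZero k]

/-- the setting of the chain step: an almost affine natural chart `χ` on `ball 0 (16 h)`, a tower `G0` of `k` levels on
`ball 0 r₀`, and the set `PP` of exceptional levels. -/
structure SU3 (n k : ℕ) [NeZero k] (f : Polynomial ℂ) (b g : ZMod k → ℂ) (R ε h r₀ : ℝ)
    (χ : ℂ → ℂ) (G0 : ℕ → ℂ → ℂ) (PP : Finset ℕ) (M : ℕ) : Prop where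
  hn : 2 ≤ n
  hdeg : f.natDegree = n
  cyc : IsCyc f b
  rho1 : 1 < ‖rho f b‖
  posR : 0 < R
  hb : ∀ j, ‖b j‖ < R
  inv : ∀ y : ℂ, ‖f.eval y‖ < R → ‖y‖ < R
  hE : 2 * Real.pi * Real.log ‖rho f b‖ + 4 * ∫ z in ball (0 : ℂ) R, ‖er f b g z‖ ≤ ε
  h0 : 0 < h
  h1 : h ≤ 1
  r0 : 0 < r₀
  r1 : r₀ ≤ h / 2
  nat : IsNat b g χ (ball 0 (16 * h))
  aff : ∀ w ∈ ball (0 : ℂ) (16 * h), ‖deriv χ w - deriv χ 0‖ ≤ ‖deriv χ 0‖ / 10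
  mp : MapsTo χ (ball 0 h) (ball 0 R)
  t0 : EqOn (G0 0) χ (ball 0 r₀)
  tdiff : ∀ q ≤ k, DifferentiableOn ℂ (G0 q) (ball 0 r₀)
  trel : ∀ q < k, ∀ w ∈ ball (0 : ℂ) r₀, f.eval (G0 (q + 1) w) = G0 q w ∧ fd f (G0 (q + 1) w) ≠ 0
  tlev : ∑ q ∈ Finset.Icc 1 k, lev b g G0 q 0 ≤ ε
  hPP : ∀ p, 1 ≤ p → p < k → p ∉ PP → 8 * h * ‖deriv χ 0‖ ≤ ‖G0 p 0 - χ 0‖
  hM : PP.card ≤ M

/-- a system of `Q` levels on the discs of radius `T q` about `0`. -/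
structure Sys3 (f : Polynomial ℂ) (h : ℝ) (χ : ℂ → ℂ) (G0 : ℕ → ℂ → ℂ) (PP : Finset ℕ) (T : ℕ → ℝ)
    (G : ℕ → ℂ → ℂ) (Q : ℕ) : Prop where
  t0 : T 0 ≤ h
  anti : ∀ q, q < Q → T (q + 1) ≤ T q
  pos : ∀ q, q ≤ Q → 0 < T q
  g0 : G 0 = χ
  diff : ∀ q, q ≤ Q → DifferentiableOn ℂ (G q) (ball 0 (T q))
  rel : ∀ q, q < Q → ∀ w ∈ ball (0 : ℂ) (T (q + 1)),
    f.eval (G (q + 1) w) = G q w ∧ fd f (G (q + 1) w) ≠ 0
  val : ∀ q, q ≤ Q → G q 0 = G0 q 0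
  disj : ∀ q, 1 ≤ q → q < Q → q ∉ PP → Disjoint (G q '' ball 0 (T (q + 1))) (χ '' ball 0 h)

/-- the standing assumptions for a system with `Q` levels. -/
structure H3 (n k : ℕ) [NeZero k] (f : Polynomial ℂ) (b g : ZMod k → ℂ) (R ε h r₀ : ℝ) (χ : ℂ → ℂ)
    (G0 : ℕ → ℂ → ℂ) (PP : Finset ℕ) (M : ℕ) (T : ℕ → ℝ) (G : ℕ → ℂ → ℂ) (Q : ℕ) : Prop where
  su3 : SU3 n k f b g R ε h r₀ χ G0 PP M
  sys : Sys3 f h χ G0 PP T G Q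
  hQ : Q ≤ k

/-- the measure `μ` of layers (layer `s` = circle of radius `h - s` about `0`) dominates the level functions. -/
def Mu3 (b g : ZMod k → ℂ) (h : ℝ) (T : ℕ → ℝ) (G : ℕ → ℂ → ℂ) (Q : ℕ) (μ : Measure ℝ) : Prop :=
  ∀ p, 1 ≤ p → p ≤ Q → ∀ (s t : ℝ) (w : ℂ), h - T p ≤ s → 0 < t → ‖w‖ = h - (s + t) →
    ENNReal.ofReal (∑ q ∈ Finset.Icc 1 p, lev b g G q w) ≤
      ENNReal.ofReal (4 / (Real.pi * t ^ 2)) * μ (Ioo (s + t / 2) (s + 3 * t / 2))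

/-- failure of the level `q` at the radius `r`. -/
def Fail3 (f : Polynomial ℂ) (h : ℝ) (χ : ℂ → ℂ) (G0 : ℕ → ℂ → ℂ) (PP : Finset ℕ) (G : ℕ → ℂ → ℂ)
    (q : ℕ) (r : ℝ) : Prop :=
  (1 ≤ q ∧ q ∉ PP ∧ ¬ Disjoint (G q '' ball 0 r) (χ '' ball 0 h)) ∨
    ¬ Br f (G q) (ball 0 r) 0 (G0 (q + 1) 0)

end

/-- S3G: geometry of the chart; numerical bounds of `e3`.
PROOF. `‖deriv χ w - deriv χ 0‖ ≤ s/10`, so by the mean value inequality on the convex ball `‖χ w - χ w' - deriv χ 0 (w - w')‖ ≤ (s/10) ‖w - w'‖`: injectivity (`s > 0` by `IsNat.eq`), and the bound of `‖χ w - χ 0‖`.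
`d3 ≤ h/16`, `cn n ≥ 4^40`, so `e3 ≤ h²/(256 · 4^40 (M+5))`. -/
def S3G_stmt : Prop := ∀ (n k : ℕ) [NeZero k] (f : Polynomial ℂ) (b g : ZMod k → ℂ)
  (R ε h r₀ : ℝ) (χ : ℂ → ℂ) (G0 : ℕ → ℂ → ℂ) (PP : Finset ℕ) (M : ℕ),
  SU3 n k f b g R ε h r₀ χ G0 PP M →
  0 < ‖deriv χ 0‖ ∧ InjOn χ (ball 0 (16 * h)) ∧
  (∀ w ∈ ball (0 : ℂ) (16 * h), ‖χ w - χ 0‖ ≤ 11 / 10 * ‖deriv χ 0‖ * ‖w‖) ∧
  0 ≤ ε ∧ 0 < d3 n M h r₀ ∧ d3 n M h r₀ ≤ r₀ ∧ d3 n M h r₀ ≤ h / (16 * (M + 1) * n) ∧ 0 < e3 n M h r₀ ∧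
  e3 n M h r₀ ≤ h ^ 2 / (256 * (M + 5))

/-- S3A: structure of the system (compare P2A: helper51/PP/P2A.lean).
PROOF. (1) induction on `q`: on the ball `D (min r₀ (T (q+1)))` both `G (q+1)` and `G0 (q+1)` are branches of `f⁻¹` over `G q = G0 q`, equal at `0` (`val`): LUN.
Iterates: for `w ∈ D (T q)` the `q`-th iterate of `f` maps `G q w` to `χ w` (`anti`). (2) injectivity: S3G. (3) `SU3.inv` and `mp`. (4) nat0 from `SU3.nat`. (5) if `q < q'` and `G q w = G q' w'` (`w ∈ D (T (q+1))`, `w' ∈ D (T (q'+1))`), the `q`-th iterate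
gives `χ w = G (q'-q) w'`, so `q'-q ∈ PP` (`disj`); so for the minimum `q₀` of `F` the map `q ↦ q - q₀` is an injection of `F \ {q₀}` into `PP`. (6) the same with all radii equal to `r ≤ T Q`. (7) agreement near `0`, `tlev` (the terms are `≥ 0`). -/
def S3A_stmt : Prop := ∀ (n k : ℕ) [NeZero k] (f : Polynomial ℂ) (b g : ZMod k → ℂ)
  (R ε h r₀ : ℝ) (χ : ℂ → ℂ) (G0 : ℕ → ℂ → ℂ) (PP : Finset ℕ) (M : ℕ) (T : ℕ → ℝ)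
  (G : ℕ → ℂ → ℂ) (Q : ℕ), H3 n k f b g R ε h r₀ χ G0 PP M T G Q →
  (∀ q ≤ Q, EqOn (G q) (G0 q) (ball 0 (min r₀ (T q)))) ∧
  (∀ q ≤ Q, InjOn (G q) (ball 0 (T q))) ∧
  (∀ q ≤ Q, MapsTo (G q) (ball 0 (T q)) (ball 0 R)) ∧
  (∀ q ≤ Q, LevSys f b g G (ball 0 (T q)) q) ∧
  (∀ (z : ℂ) (F : Finset ℕ), (∀ q ∈ F, q < Q ∧ z ∈ G q '' ball 0 (T (q + 1))) → F.card ≤ M + 1) ∧
  (∀ r, r ≤ T Q → (1 ≤ Q → Q ∉ PP → Disjoint (G Q '' ball 0 r) (χ '' ball 0 h)) →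
    ∀ (z : ℂ) (F : Finset ℕ), (∀ q ∈ F, q ≤ Q ∧ z ∈ G q '' ball 0 r) → F.card ≤ M + 1) ∧
  (∑ q ∈ Finset.Icc 1 Q, lev b g G q 0 ≤ ε)

/-- S3L: the `L¹` bound (compare P2L: helper16/PP/P2L.lean).
PROOF. For `w ∈ D h` the levels `q ∈ Icc 1 Q` with `w ∈ D (T q)` form an initial segment; LV (1) there, so with `h_q = τ_{q-1} - τ_q`: `∑_q ∫_{D (T q)} (‖h_q‖ - re h_q) ≤ ∑_{q<Q} ∫_{D (T (q+1))} dens (G q) ≤ (M+1) (2π log‖ρ‖ + 3∫‖er‖) ≤ (M+1) ε` (MA, S3A).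
`MPS.HAR` (first claim, one function, centre `0`, radius `T q ≤ h ≤ 1`): `∫_{D (T q)} ‖h_q‖ ≤ ∫ (‖h_q‖ - re h_q) + π ‖h_q 0‖`; sum over `q` (S3A (7)): `≤ (M+1) ε + π ε ≤ (M+5) ε`. -/
def S3L_stmt : Prop := ∀ (n k : ℕ) [NeZero k] (f : Polynomial ℂ) (b g : ZMod k → ℂ)
  (R ε h r₀ : ℝ) (χ : ℂ → ℂ) (G0 : ℕ → ℂ → ℂ) (PP : Finset ℕ) (M : ℕ) (T : ℕ → ℝ)
  (G : ℕ → ℂ → ℂ) (Q : ℕ), H3 n k f b g R ε h r₀ χ G0 PP M T G Q →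
  ∑ q ∈ Finset.Icc 1 Q, ∫⁻ w in ball (0 : ℂ) (T q), ENNReal.ofReal (lev b g G q w) ≤
    ENNReal.ofReal ((M + 5) * ε)

/-- MU3: the measure of layers (compare MU2: helper21/PP/MU2.lean): image under `w ↦ h - ‖w‖` of `∑_q` (volume on `D (T q)` with density `lev q`). -/
def MU3_stmt : Prop := ∀ (n k : ℕ) [NeZero k] (f : Polynomial ℂ) (b g : ZMod k → ℂ)
  (R ε h r₀ : ℝ) (χ : ℂ → ℂ) (G0 : ℕ → ℂ → ℂ) (PP : Finset ℕ) (M : ℕ) (T : ℕ → ℝ)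
  (G : ℕ → ℂ → ℂ) (Q : ℕ), H3 n k f b g R ε h r₀ χ G0 PP M T G Q →
  ∃ μ : Measure ℝ, μ univ ≤ ENNReal.ofReal ((M + 5) * ε) ∧ Mu3 b g h T G Q μ

/-- PT3: pointwise bounds (compare PT2: helper75/PP/PT2.lean). PROOF. HSM on `ball w t` for the family `τ_{q-1} - τ_q`, S3L, `π ≥ 1`; LV (4). -/
def PT3_stmt : Prop := ∀ (n k : ℕ) [NeZero k] (f : Polynomial ℂ) (b g : ZMod k → ℂ)
  (R ε h r₀ : ℝ) (χ : ℂ → ℂ) (G0 : ℕ → ℂ → ℂ) (PP : Finset ℕ) (M : ℕ) (T : ℕ → ℝ)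
  (G : ℕ → ℂ → ℂ) (Q : ℕ), H3 n k f b g R ε h r₀ χ G0 PP M T G Q →
  ∀ p, 1 ≤ p → p ≤ Q → ∀ (w : ℂ) (t : ℝ), 0 < t → ‖w‖ + t ≤ T p →
    ∑ q ∈ Finset.Icc 1 p, lev b g G q w ≤ (M + 5) * ε / t ^ 2 ∧
    ‖tau b g G p w - 1‖ ≤ ∑ q ∈ Finset.Icc 1 p, lev b g G q w

/-- REACH3 (compare REACH2: helper97/PP/REACH2.lean).
PROOF. `w₁ ∈ D r`, `v₁ ∈ D h` with `G p w₁ = χ v₁`. `w₂` = `w₁` if `‖w₁‖ ≤ r - h/8`, else the point of the segment `[w₁, 0]` with `‖w₂‖ = r - h/8`. On `[w₂, 0]` PT3 with `t = h/8`: `‖τ_p - 1‖ ≤ 64 (M+5) ε/h² ≤ 1/4`; its length is `≤ h`, so its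
`‖τ‖^{1/2}`-length is `≤ 1.12 h`. The length of `[w₁,w₂]` is `≤ h/8 + ∫_{t₀}^{h/8} ‖τ_p - 1‖^{1/2} dt`, `t = r - ‖w‖`, and by `Mu3` with `s = h - r`: `‖τ_p - 1‖ ≤ (4/(π t²)) μ(Ioo (s+t/2) (s+3t/2))`, so the integral is
`≤ PsiM μ (h/8) (h - r)`. If that is `< h` then the total length is `< 3h` and NPL twice (`χ` natural on `ball 0 (16h) ⊇ ball v₁ (3h)`; `G p` on `D (T p)`) gives `v₃`, `‖v₃ - v₁‖ < 3h`, `χ v₃ = G p 0 = G0 p 0`. So `‖G0 p 0 - χ 0‖ ≤ (11/10) s · 4h < 8 h s` (S3G),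
contradiction to `hPP`. -/
def REACH3_stmt : Prop := ∀ (n k : ℕ) [NeZero k] (f : Polynomial ℂ) (b g : ZMod k → ℂ)
  (R ε h r₀ : ℝ) (χ : ℂ → ℂ) (G0 : ℕ → ℂ → ℂ) (PP : Finset ℕ) (M : ℕ) (T : ℕ → ℝ)
  (G : ℕ → ℂ → ℂ) (Q : ℕ) (μ : Measure ℝ), H3 n k f b g R ε h r₀ χ G0 PP M T G Q →
  ε ≤ e3 n M h r₀ → Mu3 b g h T G Q μ → ∀ (p : ℕ) (r : ℝ), 1 ≤ p → p < k → p ≤ Q → p ∉ PP →
  3 * h / 4 ≤ r → r ≤ T p →
  ¬ Disjoint (G p '' ball 0 r) (χ '' ball 0 h) →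
    ENNReal.ofReal h ≤ PsiM μ (h / 8) (h - r)

/-- EV3: the loss of radius at a critical value (compare EV2: helper60/PP/EV2.lean).
PROOF. Suppose `d = d3 n M h r₀ ≤ r - T (Q+1)`. If `T (Q+1) < r₀` take `r'` with `T (Q+1) < r' ≤ min r r₀`: `G0 (Q+1)` is a branch over `G Q = G0 Q` on `D r'` (S3A (1), `trel`), contradiction. So `d ≤ r₀ ≤ T (Q+1)`. BDY with centre `0`, radius `T (Q+1)`, `r₁ = r`, `F = G Q`, `h = G (Q+1)`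
(`G (Q+1) 0 = G0 (Q+1) 0`): `ws`, `ys`. EVT with `a = 0`, radius `T (Q+1)`, `G = G Q` on `ball ws d ⊆ D r` (injective: S3A; avoids the `b j`: LEA), `ν = (M+1) ε`: LV (2), (3) for the system of `Q` levels and MA with `M + 1` (S3A (6), at the radius `r`).
`t ∈ [d/4^n, d]`, `‖w₀‖ = T (Q+1) - t/2`; PT3 at the level `Q+1`, depth `t/2`: `∑ lev ≤ 4 (M+5) ε/t²`. So `1 - 4 (M+5) ε/t² ≤ 4^21 (4 (M+5) + 100 (M+1)) ε/t²`, while `t² ≥ d²/16^n` and `ε ≤ e3` give `(M+5) ε/t² ≤ 4^{-40}`: contradiction. -/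
def EV3_stmt : Prop := ∀ (n k : ℕ) [NeZero k] (f : Polynomial ℂ) (b g : ZMod k → ℂ)
  (R ε h r₀ : ℝ) (χ : ℂ → ℂ) (G0 : ℕ → ℂ → ℂ) (PP : Finset ℕ) (M : ℕ) (T : ℕ → ℝ)
  (G : ℕ → ℂ → ℂ) (Q : ℕ), H3 n k f b g R ε h r₀ χ G0 PP M T G (Q + 1) → ε ≤ e3 n M h r₀ →
  ∀ r : ℝ, r ≤ T Q →
  (1 ≤ Q → Q ∉ PP → Disjoint (G Q '' ball 0 r) (χ '' ball 0 h)) →
  (∀ r', T (Q + 1) < r' → r' ≤ r → ¬ Br f (G Q) (ball 0 r') 0 (G0 (Q + 1) 0)) →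
  r < T (Q + 1) + d3 n M h r₀

/-- STEP3: one more level (compare STEP2: helper30/PP/STEP2.lean).
PROOF. `S = {r | 0 < r ≤ T Q, ¬ Fail3 .. Q r}` is not empty: for `r ≤ min r₀ (T Q)` the branch `G0 (Q+1)` over `G Q = G0 Q` (S3A (1)); if `1 ≤ Q`, `Q ∉ PP` then `‖G Q 0 - χ 0‖ ≥ 8 h s` (`hPP`, `Q < k`), every point of `χ '' D h` has distance `≤ 11 h s/10` from `χ 0` (S3G) and `G Q` is continuous at `0`:
disjointness for small `r`. `t' = sSup S`; `¬ Fail3` at `t'`: union of smaller balls, branches agree (LUN). `g'` = the branch on `D t'`. -/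
def STEP3_stmt : Prop := ∀ (n k : ℕ) [NeZero k] (f : Polynomial ℂ) (b g : ZMod k → ℂ)
  (R ε h r₀ : ℝ) (χ : ℂ → ℂ) (G0 : ℕ → ℂ → ℂ) (PP : Finset ℕ) (M : ℕ) (T : ℕ → ℝ)
  (G : ℕ → ℂ → ℂ) (Q : ℕ), H3 n k f b g R ε h r₀ χ G0 PP M T G Q → Q < k →
  ∃ (t' : ℝ) (g' : ℂ → ℂ),
    H3 n k f b g R ε h r₀ χ G0 PP M (Function.update T (Q + 1) t')
      (Function.update G (Q + 1) g') (Q + 1) ∧
    ∀ r, t' < r → r < T Q → Fail3 f h χ G0 PP G Q r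

/-- SEQ3: all levels. PROOF. Induction with STEP3, starting from `T 0 = h`, `G 0 = χ` (as SEQ2: helper19/PP/SEQ2.lean). -/
def SEQ3_stmt : Prop := ∀ (n k : ℕ) [NeZero k] (f : Polynomial ℂ) (b g : ZMod k → ℂ)
  (R ε h r₀ : ℝ) (χ : ℂ → ℂ) (G0 : ℕ → ℂ → ℂ) (PP : Finset ℕ) (M : ℕ),
  SU3 n k f b g R ε h r₀ χ G0 PP M →
  ∃ (T : ℕ → ℝ) (G : ℕ → ℂ → ℂ), H3 n k f b g R ε h r₀ χ G0 PP M T G k ∧ T 0 = h ∧
    ∀ q < k, ∀ r, T (q + 1) < r → r < T q → Fail3 f h χ G0 PP G q r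

/-- PH3: conclusion (compare PH2: helper16/PP/PH2.lean).
PROOF. SEQ3, MU3 (`Q = k`). Suppose `T k ≤ 3h/4`. Almost every `r ∈ (3h/4, h)` is in some `(T (q+1), T q)`, `q < k`. Either (i) `1 ≤ q`, `q ∉ PP` and not disjoint at `r`: REACH3: `PsiM μ (h/8) (h - r) ≥ h`; CHEB: measure `≤ 16 (h/8) (M+5) ε/(π h²) ≤ h/16` (S3G: `ε ≤ e3 ≤ h²/(256 (M+5))`).
Or (ii) `r ∈ J_q`: level `q` is good at `r` (disjoint, or `q = 0`, or `q ∈ PP`) and there is no branch at `r`. `J_q` is a down-set of `(max (T (q+1)) (3h/4), T q)`; EV3 (system with `q+1` levels; for `T (q+1) < r' ≤ r` the level is good at `r'`, so by Fail3 there is no branch):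
`r < T (q+1) + d3` for every `r ∈ J_q`, so `J_q` has measure `≤ d3`. If `r_q ∈ J_q` then by LIFT some critical value `v_q` is in `G q '' D r_q`. Every critical value occurs for at most `M + 1` of the `q`: for `q < q'` with `v_q = v_q' = G q w = G q' w'` the `q`-th iterate gives
`χ w = G (q'-q) w'`, `w' ∈ D r_q' ⊆ D (T (q'-q+1))` if `q ≥ 1` (`r_q' < T q' ≤ T (q'-q+1)`), so `disj` gives `q' - q ∈ PP`; for `q = 0` use that `q'` is good at `r_q'`; so for the smallest such `q₀` all other differences `q - q₀` are in `PP`. So at most `(M+1)(n-1)` of the `J_q` are non empty (PRB): total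
`h/4 ≤ h/16 + (M+1)(n-1) h/(16(M+1)n) < h/4`: contradiction. Take `r = T k`, restrict. -/
def PH3_stmt : Prop := ∀ (n k : ℕ) [NeZero k] (f : Polynomial ℂ) (b g : ZMod k → ℂ)
  (R ε h r₀ : ℝ) (χ : ℂ → ℂ) (G0 : ℕ → ℂ → ℂ) (PP : Finset ℕ) (M : ℕ),
  SU3 n k f b g R ε h r₀ χ G0 PP M → ε ≤ e3 n M h r₀ →
  ∃ (r : ℝ) (G : ℕ → ℂ → ℂ), 3 * h / 4 < r ∧ H3 n k f b g R ε h r₀ χ G0 PP M (fun _ => r) G k

/-- CS: the chain step.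
PROOF. PH3, S3A (restrict to `D (3h/4)`; `r₀ ≤ h/2 < 3h/4 < r`), PT3 with `t = h/4`. -/
def CS_stmt : Prop := ∀ (n k : ℕ) [NeZero k] (f : Polynomial ℂ) (b g : ZMod k → ℂ)
  (R ε h r₀ : ℝ) (χ : ℂ → ℂ) (G0 : ℕ → ℂ → ℂ) (PP : Finset ℕ) (M : ℕ),
  SU3 n k f b g R ε h r₀ χ G0 PP M → ε ≤ e3 n M h r₀ →
  ∃ G : ℕ → ℂ → ℂ, G 0 = χ ∧ LevSys f b g G (ball 0 (3 * h / 4)) k ∧
    (∀ q ≤ k, EqOn (G q) (G0 q) (ball 0 r₀)) ∧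
    (∀ q ≤ k, InjOn (G q) (ball 0 (3 * h / 4))) ∧
    (∀ q ≤ k, MapsTo (G q) (ball 0 (3 * h / 4)) (ball 0 R)) ∧
    ∀ w ∈ ball (0 : ℂ) (h / 2), (∑ q ∈ Finset.Icc 1 k, lev b g G q w ≤ 16 * (M + 5) * ε / h ^ 2) ∧
      ∀ q ≤ k, ‖tau b g G q w - 1‖ ≤ 16 * (M + 5) * ε / h ^ 2

end PPS
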