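import Pool.Agent.helper10.V3.Defs
import Pool.Agent.helper54.V3.SpecT
import Pool.Agent.helper36.V3.SpecS

/-!
# Project v3: part P (Phase 1 and the start of the chain): (1.1) - (1.3), (5.1) of /team-store/MP_af9036_V3_notes.md; the chain step in the form of `V3S.CS_stmt`

RULES. File `Pool/Agent/<seat>/V3/XX.lean`, `import Pool.Agent.helper36.V3.SpecP`, `namespace V3S`, `theorem XX (h : YY_stmt) ... : XX_stmt`. Hypotheses may be: other statements of this file (no circles), every statement of the specs of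
pp: (`PPS`) and `MPS` (all proved), `PPS.CS_stmt` (SpecS), `V3.KO1_stmt`, `V3.KO3_stmt`, `V3.TUL_stmt` (SpecT). Auxiliary lemmas prefixed `XX_`. No `sorry`, no double quotes in comments.
-/

set_option autoImplicit false

open Complex Metric Set Filter Topology MeasureTheory MPS

noncomputable section

namespace V3S

/-- the bound for `2π log‖ρ‖ + 4∫_{ball 0 R}‖er‖`. -/
def Eb (Cf : ℝ → ℝ) (R : ℝ) (D : Dat) : ℝ := (2 * Real.pi + 4 * Cf R) * ‖D.lam‖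

/-- CSH: the chain step in the form of `V3S.CS_stmt`.
PROOF. `h ≤ 1` by `HC.h1` (if there is no `HC` nothing is claimed: put `ε₁ = min (e3 n M h r₀) 1 / 2`, `C = 16 (M+5)/h²`). `PPS.CS_stmt` with `ε = E + η₀` (`E ≥ 0`, `η₀ ≥ 0`: they bound nonnegative quantities) and `PP` = the finite set in `HC.exc` (`Set.ncard`; the set is finite, contained in `Iio k`); `SU3.hb`
from `hra`, `hR`. `EqOn (G 0) χ` from `G 0 = χ`. -/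
def CSH_stmt : Prop := CS_stmt

/-- SUD: a good datum satisfies the standing assumptions of pp: for every `R > ra`.
PROOF. `‖ρ‖ = exp (Re lam) > 1`, `log‖ρ‖ = Re lam ≤ ‖lam‖`, `her`. -/
def SUD_stmt : Prop := ∀ (n : ℕ) (ra : ℝ) (Cf : ℝ → ℝ) (D : Dat), D.Good n ra Cf → ∀ R : ℝ, ra < R →
  PPS.SU n D.k D.f D.b D.g D.ψ ra R (Eb Cf R D)

/-- ST2: the level `k` on the cylinder.
PROOF. `PPS.INC` with `Q = k`: `Φ₁` on `HP (3δ + δ/8)`, `κ`, `exp κ = Kq f b ψ 0 k = ρ⁻¹ = exp (-lam)` (`PPS.COC`), so `κ = -lam + 2πi j`. `ψ (-(k : ZMod k)) = ψ 0`. `Φ = Φ₁ - 2πi j` (`hat` is `2πi`-periodic), `Re Φ = Re Φ₁ < 0`.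
Bound: `deriv Φ₁ ^ 2 = tau k`, `‖deriv Φ₁ - 1‖ ≤ 1/4`, so `‖deriv Φ₁ - 1‖ ≤ ‖tau k - 1‖ ≤ 4 ε exp (1 - t)` at depth `t = -Re w - 3δ ≥ 1` (`PPS.PT1`). So `E w = Φ₁ w - w - κ` has along every horizontal half line to the left a limit `L`, `‖E w - L‖ ≤ ∫_t^∞ 4 ε exp (1 - s) ds ≤ 4 ε`. As `‖E‖ ≤ δ/32`,
`‖L‖ ≤ δ/32`; and for `Re w → -∞` (`u = exp w → 0`): `ψ 0 (exp (Φ₁ w)) = G k u`, so `ψ'(0) exp (Φ₁ w) (1 + o(1)) = deriv (G k) 0 · u (1 + o(1))`, `exp (Φ₁ w - w) → deriv (G k) 0/ψ'(0) = Kq f b ψ 0 k = exp κ` (`PPS.DG`), so `exp L = 1`, `L = 0`. -/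
def ST2_stmt : Prop := ∀ (n k : ℕ) [NeZero k] (f : Polynomial ℂ) (b g : ZMod k → ℂ)
  (ψ : ZMod k → ℂ → ℂ) (ra R ε δ : ℝ) (G : ℕ → ℂ → ℂ) (lam : ℂ),
  PPS.H1 n k f b g ψ ra R ε δ (fun _ => 3 * δ) G k → ε ≤ δ ^ 2 / 1024 → PPS.rho f b = Complex.exp lam →
  ∃ Φ : ℂ → ℂ, DifferentiableOn ℂ Φ (HP (4 * δ)) ∧
    (∀ w ∈ HP (4 * δ), (Φ w).re < 0 ∧ hat (ψ 0) (Φ w) = GW G k w) ∧
    ∀ w ∈ HP (3 * δ + 1), ‖Φ w - (w - lam)‖ ≤ 4 * ε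

/-- ST1: chart and tower near `ψ 0 (1/4)` for one datum.
PROOF. `δ = 1/20`, `R` > the `R₀` of `PPS.P1W` and `> ra`; `ε = Eb Cf R D` (SUD) is small if `‖lam‖` is. P1W: `G1`, `H1` for all `Q ≤ k`; ST2: `Φ₁`. `C_K` = maximum of the constants of KO3 for `η = 1/3` (universal). Let `‖u - 1/4‖ ≤ 1/16`, so `Re u > 0`, `3/16 ≤ ‖u‖ ≤ 5/16`, `Re (log u) ≤ -1.16 < -(3δ + 1)`.
`χ w = ψ 0 (u exp w)`, `G q w = G1 q (u exp w) = GW G1 q (log u + w)`, `Φ w = Φ₁ (log u + w) - log u`; `r` universal, small: `‖w‖ < 2r` gives `‖u exp w - u‖ ≤ ‖w‖`. `IsNat`: `PN.eq` (`χ' w = u exp w · ψ'(u exp w)`). `aff`: KO3 for `ψ 0` (injective: MPS.NI) on `ball u (1/2)`: `‖ψ'(u e^w) - ψ'(u)‖ ≤ 2 C_K ‖w‖ ‖ψ' u‖`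
and `‖e^w - 1‖ ≤ 2‖w‖`. `LevSys`: translate `LevSys f b g (GW G1) (HP (3δ)) k` (`PPS.P1A`). `sum`: PT1 at depth `≥ 1`: `≤ 4 ε`, `lev` is invariant under translations. `phi`: ST2: `‖Φ w - w‖ ≤ ‖lam‖ + 4 ε`; `χ (Φ w) = ψ 0 (exp (Φ₁ (log u + w))) = GW G1 k (log u + w)`. `kc`: KO3 for `G1 q` (injective on `ball 0 (exp (-3δ))`, P1A;
`G1 q 0 = b (-q)`, `Sys1.val`): centre `0`, `x = u`, `‖u‖ ≤ 5/16 < (2/3) exp (-3/20)`: `‖G1 q u - G1 q 0‖ ≤ C ‖u‖ ‖G1 q' 0‖ ≤ C² ‖u‖ ‖G1 q' u‖`, and `deriv (G q) 0 = u G1 q' u`. -/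
def ST1_stmt : Prop := ∃ r > (0 : ℝ), ∀ (n : ℕ) (ra : ℝ) (Cf : ℝ → ℝ), ∃ C > (0 : ℝ), ∃ ε₀ > (0 : ℝ),
  ∀ D : Dat, D.Good n ra Cf → ‖D.lam‖ ≤ ε₀ → ∀ u : ℂ, ‖u - 1 / 4‖ ≤ 1 / 16 →
    ∃ (χ : ℂ → ℂ) (G : ℕ → ℂ → ℂ) (Φ : ℂ → ℂ), Ctl D (D.xx (D.ψ 0 u)) r C χ G Φ

/-- START: the chain property at the first point [V3, (5.1)].
PROOF. In the `x`-plane `ψ̃ u = xx (ψ 0 u)` is injective on the unit disc (MPS.NI), `ψ̃ 0 = 0`, `ψ̃' 0 = 1` (`sg = ψ 0 ' 0 ≠ 0`). KO3 (`a = 0`, `r = 1`): `x_m = ψ̃ (1/4)` is bounded: TUL gives the limit `x₀`. KO3 and KO1 on `ball (1/4) (1/16)`: `ψ̃ '' ball (1/4) (1/16) ⊇ ball (x_m) c` with a universal `c > 0`; so eventually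
`x₀ = ψ̃ u_m` with `‖u_m - 1/4‖ < 1/16`. ST1 for `u_m` (`‖lam‖ → 0` along `UF`, `UF_le`); `xx (ψ 0 u_m) = x₀`. -/
def START_stmt : Prop := ∀ (n : ℕ) (ra : ℝ) (Cf : ℝ → ℝ) (D : ℕ → Dat), Seq n ra Cf D →
  ∃ x₀ : ℂ, Tendsto (fun m => (D m).xx ((D m).ψ 0 (1 / 4))) UF (𝓝 x₀) ∧ CTL D x₀

/-- KRD: the transports [V3, (1.2), (5.6)].
PROOF. `A j = (f^j)'(b 0) = ∏_{i < j} fd f (b i)` (chain rule; `F j` is conjugate to `f^j` by an affine map). For `1 ≤ j ≤ k`: `Kq f b ψ j j = ψ_j'(0)/(ψ_0'(0) A j)` (in `Kq f b ψ i q` with `i = q = j` the product is over `fd f (b (j - l))`, `l = 1..j`). `PPS.KRE` with `5 δ ≤ η`, SUD. `j = 0`: `A 0 = 1`. -/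
def KRD_stmt : Prop := ∀ (n : ℕ) (ra : ℝ) (Cf : ℝ → ℝ) (η : ℝ), 0 < η → ∃ ε₀ > (0 : ℝ), ∀ D : Dat,
  D.Good n ra Cf → ‖D.lam‖ ≤ ε₀ → ∀ j : ℕ, j ≤ D.k → D.A j ≠ 0 ∧ deriv (D.ψ (j : ZMod D.k)) 0 ≠ 0 ∧
    |Real.log (‖deriv (D.ψ (j : ZMod D.k)) 0‖ / ‖D.sg‖) - Real.log ‖D.A j‖| ≤ η

end V3S
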