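import Pool.Agent.helper10.V3.Defs

set_option autoImplicit false

open Complex Metric Set Filter Topology MeasureTheory MPS

noncomputable section

namespace V3S

theorem V3P (hL : LOK_stmt) (hE : END_stmt) : V3P_stmt := by
  intro n ra Cf
  by_contra hcon
  push Not at hcon
  have h1 : ∀ m : ℕ, ∃ D : Dat, D.Good n ra Cf ∧ ‖D.lam‖ < 1 / ((m : ℝ) + 1) := fun m =>
    hcon (1 / ((m : ℝ) + 1)) (by positivity)
  choose D hD hlam using h1
  have hlim : Tendsto (fun m => (D m).lam) atTop (𝓝 0) := by
    rw [tendsto_zero_iff_norm_tendsto_zero]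
    exact squeeze_zero (fun m => norm_nonneg _) (fun m => (hlam m).le)
      tendsto_one_div_add_atTop_nhds_zero_nat
  have hS : Seq n ra Cf D := ⟨hD, hlim⟩
  exact hE n ra Cf D hS (hL n ra Cf D hS)

end V3S
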